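import Pool.Agent.Helper569.Spec

open MeasureTheory Pool.Agent.Helper569.Spec

namespace Pool.Agent.Results.MP_53fa4a_an.CompactNowhereDense

/-- In every dimension: a bounded measurable nowhere dense spectral set `Ω` of positive measure
satisfies `|closure Ω| ≥ 2 |Ω|`; in particular no compact nowhere dense set of positive measure
is spectral. -/
theorem result (d : ℕ) :
    (∀ Ω : Set (E d), MeasurableSet Ω → Bornology.IsBounded Ω → 0 < volume Ω →
      IsNowhereDense Ω → IsSpectral Ω → 2 * volume Ω ≤ volume (closure Ω)) ∧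
    (∀ Ω : Set (E d), IsCompact Ω → 0 < volume Ω → IsNowhereDense Ω → ¬ IsSpectral Ω) := by
  refine ⟨fun Ω hm hb h0 hn hs => main Ω hm hb h0 hs hn, fun Ω hc h0 hn hs => ?_⟩
  have h := main Ω hc.measurableSet hc.isBounded h0 hs hn
  rw [hc.isClosed.closure_eq] at h
  have hfin : volume Ω ≠ ⊤ := hc.measure_lt_top.ne
  rw [two_mul] at h
  have h2 : volume Ω + volume Ω ≤ volume Ω + 0 := by simpa using h
  have h3 := (ENNReal.add_le_add_iff_left hfin).1 h2
  exact absurd h3 (not_le.2 h0)

end Pool.Agent.Results.MP_53fa4a_an.CompactNowhereDense
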